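import Pool.Agent.H487R3.BRA.Stmts
set_option autoImplicit false

/-! second proof of TaskKer2 -/

namespace Pool.Agent.H153R7

open MeasureTheory Set
open Pool.Agent.H487R3.BRA

lemma bump_deriv {φ : ℝ → ℝ} (h : Bump φ) : Bump (deriv φ) := by
  refine ⟨?_, fun v hv => ?_⟩
  · have := h.1
    rw [show ((⊤ : ℕ∞) : WithTop ℕ∞) = ((⊤ : ℕ∞) : WithTop ℕ∞) + 1 by rfl,
      contDiff_succ_iff_deriv] at this
    exact this.2.2
  · by_contra hc
    apply hv
    have hopen : IsOpen {v : ℝ | ¬ (1 / 2 ≤ v ∧ v ≤ 2)} := by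
      have : {v : ℝ | ¬ (1 / 2 ≤ v ∧ v ≤ 2)} = (Icc (1 / 2 : ℝ) 2)ᶜ := rfl
      rw [this]
      exact isClosed_Icc.isOpen_compl
    have h1 : φ =ᶠ[nhds v] fun _ => 0 := by
      filter_upwards [hopen.mem_nhds hc] with w hw
      by_contra h0
      exact hw (h.2 w h0)
    rw [h1.deriv_eq]
    simp

lemma bump_iter {ψ : ℝ → ℝ} (h : Bump ψ) (k : ℕ) : Bump (deriv^[k] ψ) := by
  induction k with
  | zero => exact h
  | succ k ih =>
    rw [Function.iterate_succ_apply']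
    exact bump_deriv ih

lemma bump_bdd {φ : ℝ → ℝ} (h : Bump φ) : ∃ B : ℝ, 0 ≤ B ∧ ∀ v, |φ v| ≤ B := by
  obtain ⟨B, hB⟩ := (isCompact_Icc (a := (1 / 2 : ℝ)) (b := 2)).exists_bound_of_continuousOn
    h.1.continuous.continuousOn
  refine ⟨max B 0, le_max_right _ _, fun v => ?_⟩
  by_cases h0 : φ v = 0
  · rw [h0, abs_zero]
    exact le_max_right _ _
  · exact (hB v (h.2 v h0)).trans (le_max_left _ _)

lemma iter {n : ℕ} (hI : TaskIBP) {ψ : ℝ → ℝ} (hψ : Bump ψ) (Λ : ℝ) (hΛ : 1 ≤ Λ) (x : E n)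
    (S : Finset (Fin n)) :
    ((∏ i ∈ S, x i : ℝ) : ℂ) * ker n (pc ψ Λ 1) x =
      ((Λ : ℂ) / (Real.pi * Complex.I)) ^ S.card *
        ∫ ξ : E n, (((∏ j ∈ S, ξ j) * (deriv^[S.card] ψ) (Λ * (1 - ‖ξ‖ ^ 2)) : ℝ) : ℂ) *
          e (inner ℝ x ξ) := by
  classical
  induction S using Finset.induction_on with
  | empty =>
    simp only [Finset.prod_empty, Complex.ofReal_one, one_mul, Finset.card_empty, pow_zero,
      Function.iterate_zero, id]
    unfold ker pc
    simp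
  | insert i S hi ih =>
    rw [Finset.prod_insert hi, Finset.card_insert_of_notMem hi]
    have h1 := hI n Λ (deriv^[S.card] ψ) S i x hΛ (bump_iter hψ _) hi
    rw [Complex.ofReal_mul, mul_assoc, ih, mul_left_comm, h1, Function.iterate_succ_apply', pow_succ,
      mul_assoc]

theorem result : TaskShell → TaskPlanch → TaskIBP → TaskKer2 := by
  intro hS hP hI n ψ hn hψ
  obtain ⟨C, hC, hshell⟩ := hS n hn
  choose Bk hB0 hBk using fun k : ℕ => bump_bdd (bump_iter hψ k)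
  set A : ℝ := 1 + ∑ k ∈ Finset.range (n + 1), Bk k ^ 2 with hA
  have hA0 : 0 < A := by
    have : 0 ≤ ∑ k ∈ Finset.range (n + 1), Bk k ^ 2 := Finset.sum_nonneg fun k _ => sq_nonneg _
    linarith
  refine ⟨A * C, by positivity, fun Λ hΛ S => ?_⟩
  have hΛ0 : 0 < Λ := by linarith
  have hcard : S.card ∈ Finset.range (n + 1) := by
    rw [Finset.mem_range, Nat.lt_succ_iff]
    simpa using Finset.card_le_univ S
  have hBA : Bk S.card ^ 2 ≤ A := by
    have := Finset.single_le_sum (f := fun k => Bk k ^ 2) (fun k _ => sq_nonneg _) hcard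
    linarith
  set φ : ℝ → ℝ := deriv^[S.card] ψ with hφ
  have hφb : Bump φ := bump_iter hψ _
  set H : E n → ℂ := fun ξ => (((∏ j ∈ S, ξ j) * φ (Λ * (1 - ‖ξ‖ ^ 2)) : ℝ) : ℂ) with hH
  have hHc : Continuous H := by
    rw [hH]
    apply Complex.continuous_ofReal.comp
    apply Continuous.mul
    · exact continuous_finsetProd _ fun j _ => by fun_prop
    · exact hφb.1.continuous.comp (by fun_prop)
  have hsupp : ∀ ξ : E n, H ξ ≠ 0 → 1 - 2 / Λ ≤ ‖ξ‖ ^ 2 ∧ ‖ξ‖ ^ 2 ≤ 1 := by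
    intro ξ hξ
    have h1 : φ (Λ * (1 - ‖ξ‖ ^ 2)) ≠ 0 := by
      intro h0
      apply hξ
      rw [hH]
      simp only
      rw [h0, mul_zero, Complex.ofReal_zero]
    obtain ⟨h2, h3⟩ := hφb.2 _ h1
    constructor
    · have : 1 - ‖ξ‖ ^ 2 ≤ 2 / Λ := by
        rw [le_div_iff₀ hΛ0]
        linarith
      linarith
    · by_contra hc
      push Not at hc
      have : Λ * (1 - ‖ξ‖ ^ 2) < 0 := by nlinarith
      linarith
  have hHs : HasCompactSupport H := by
    apply HasCompactSupport.intro (isCompact_closedBall (0 : E n) 1)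
    intro ξ hξ
    by_contra h0
    apply hξ
    rw [mem_closedBall_zero_iff]
    have := (hsupp ξ h0).2
    nlinarith [norm_nonneg ξ]
  have hbd : ∀ ξ : E n, ‖H ξ‖ ≤ Bk S.card := by
    intro ξ
    by_cases h0 : H ξ = 0
    · rw [h0, norm_zero]
      exact hB0 _
    · have h1 := (hsupp ξ h0).2
      have hn1 : ‖ξ‖ ≤ 1 := by nlinarith [norm_nonneg ξ]
      rw [hH]
      simp only
      rw [Complex.norm_real, norm_mul, norm_prod]
      have h2 : ∏ j ∈ S, ‖ξ j‖ ≤ 1 := by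
        apply Finset.prod_le_one
        · intro j _
          exact norm_nonneg _
        · intro j _
          exact (PiLp.norm_apply_le ξ j).trans hn1
      calc (∏ j ∈ S, ‖ξ j‖) * ‖φ (Λ * (1 - ‖ξ‖ ^ 2))‖ ≤ 1 * Bk S.card := by
            apply mul_le_mul h2 _ (norm_nonneg _) zero_le_one
            rw [Real.norm_eq_abs]
            exact hBk S.card _
        _ = _ := one_mul _
  have hpt : ∀ x : E n, ENNReal.ofReal (∏ i ∈ S, (x i / Λ) ^ 2) *
      ‖ker n (pc ψ Λ 1) x‖ₑ ^ (2 : ℝ) ≤ ‖∫ ξ : E n, H ξ * e (inner ℝ x ξ)‖ₑ ^ (2 : ℝ) := by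
    intro x
    have h1 := iter hI hψ Λ hΛ x S
    have h2 : (∏ i ∈ S, (x i / Λ) ^ 2) * ‖ker n (pc ψ Λ 1) x‖ ^ 2 ≤
        ‖∫ ξ : E n, H ξ * e (inner ℝ x ξ)‖ ^ 2 := by
      have h3 : ‖((∏ i ∈ S, x i : ℝ) : ℂ) * ker n (pc ψ Λ 1) x‖ ^ 2 =
          (Λ ^ S.card) ^ 2 * ((∏ i ∈ S, (x i / Λ) ^ 2) * ‖ker n (pc ψ Λ 1) x‖ ^ 2) := by
        rw [norm_mul, mul_pow, Complex.norm_real, Real.norm_eq_abs, sq_abs]
        have : ∏ i ∈ S, (x i / Λ) ^ 2 = (∏ i ∈ S, x i) ^ 2 / (Λ ^ S.card) ^ 2 := by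
          simp only [div_pow]
          rw [Finset.prod_div_distrib, Finset.prod_pow, Finset.prod_const, ← pow_mul, ← pow_mul,
            mul_comm 2]
        rw [this]
        field_simp
      have h4 : ‖((Λ : ℂ) / (Real.pi * Complex.I)) ^ S.card *
          ∫ ξ : E n, H ξ * e (inner ℝ x ξ)‖ ^ 2 ≤
          (Λ ^ S.card) ^ 2 * ‖∫ ξ : E n, H ξ * e (inner ℝ x ξ)‖ ^ 2 := by
        rw [norm_mul, mul_pow, norm_pow]
        have h5 : ‖(Λ : ℂ) / (Real.pi * Complex.I)‖ ≤ Λ := by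
          rw [norm_div, norm_mul, Complex.norm_I, mul_one, Complex.norm_real, Complex.norm_real,
            Real.norm_of_nonneg hΛ0.le, Real.norm_of_nonneg Real.pi_pos.le]
          apply div_le_self hΛ0.le
          have := Real.pi_gt_three
          linarith
        gcongr
      rw [h1] at h3
      have h6 : (0 : ℝ) < (Λ ^ S.card) ^ 2 := by positivity
      exact le_of_mul_le_mul_left (h3.symm.le.trans h4) h6
    have e1 : ∀ z : ℂ, ‖z‖ₑ ^ (2 : ℝ) = ENNReal.ofReal (‖z‖ ^ 2) := by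
      intro z
      rw [ENNReal.rpow_ofNat, ENNReal.ofReal_pow (norm_nonneg _), ofReal_norm]
    rw [e1, e1, ← ENNReal.ofReal_mul (Finset.prod_nonneg fun i _ => sq_nonneg _)]
    exact ENNReal.ofReal_le_ofReal h2
  refine (lintegral_mono hpt).trans ?_
  rw [hP n H hHc hHs]
  set T : Set (E n) := {ξ : E n | 1 - 2 / Λ ≤ ‖ξ‖ ^ 2 ∧ ‖ξ‖ ^ 2 ≤ 1} with hT
  have hTm : MeasurableSet T := by
    rw [hT]
    have c1 : Continuous fun ξ : E n => ‖ξ‖ ^ 2 := by fun_prop
    exact ((isClosed_le continuous_const c1).inter (isClosed_le c1 continuous_const)).measurableSet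
  calc ∫⁻ ξ : E n, ‖H ξ‖ₑ ^ (2 : ℝ) ≤ ∫⁻ ξ, T.indicator (fun _ => ENNReal.ofReal A) ξ := by
        apply lintegral_mono
        intro ξ
        simp only
        by_cases h0 : H ξ = 0
        · rw [h0, enorm_zero, ENNReal.zero_rpow_of_pos (by norm_num)]
          exact bot_le
        · rw [indicator_of_mem (show ξ ∈ T from hsupp ξ h0), ENNReal.rpow_ofNat, ← ofReal_norm,
            ← ENNReal.ofReal_pow (norm_nonneg _)]
          apply ENNReal.ofReal_le_ofReal
          refine le_trans ?_ hBA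
          exact pow_le_pow_left₀ (norm_nonneg _) (hbd ξ) 2
    _ = ENNReal.ofReal A * volume T := by
        rw [lintegral_indicator hTm, lintegral_const, Measure.restrict_apply_univ]
    _ ≤ ENNReal.ofReal A * ENNReal.ofReal (C / Λ) := by
        gcongr
        exact hshell Λ hΛ
    _ = ENNReal.ofReal (A * C / Λ) := by
        rw [← ENNReal.ofReal_mul hA0.le]
        congr 1
        ring

end Pool.Agent.H153R7
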